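import Mathlib

/-!
Generic linear images of finite point sets with no three collinear points: after a generic choice of the
second coordinate the image has no three collinear and no four concyclic points.
-/

set_option autoImplicit false

namespace Pool.Agent.Helper532.Separated

open Polynomial

/-- the polynomial with coefficient vector `a` -/
noncomputable def P {d : ℕ} (a : Fin d → ℝ) : ℝ[X] := ∑ i : Fin d, C (a i) * X ^ (i : ℕ)

lemma P_coeff {d : ℕ} (a : Fin d → ℝ) (i : Fin d) : (P a).coeff (i : ℕ) = a i := by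
  unfold P
  rw [Polynomial.finset_sum_coeff]
  simp only [Polynomial.coeff_C_mul, Polynomial.coeff_X_pow]
  rw [Finset.sum_eq_single i]
  · simp
  · intro j _ hj
    have : ¬ ((i : ℕ) = (j : ℕ)) := fun h => hj (Fin.ext h.symm)
    simp [this]
  · intro h; exact absurd (Finset.mem_univ i) h

lemma P_eval {d : ℕ} (a : Fin d → ℝ) (t : ℝ) : (P a).eval t = ∑ i : Fin d, a i * t ^ (i : ℕ) := by
  unfold P
  rw [Polynomial.eval_finset_sum]
  simp

lemma P_inj {d : ℕ} {a b : Fin d → ℝ} (h : P a = P b) : a = b := by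
  funext i
  rw [← P_coeff a i, ← P_coeff b i, h]

lemma P_lin {d : ℕ} (a b c : Fin d → ℝ) (l m : ℝ) :
    C l * (P b - P a) + C m * (P c - P a) = P (l • (b - a) + m • (c - a)) := by
  unfold P
  rw [← Finset.sum_sub_distrib, ← Finset.sum_sub_distrib, Finset.mul_sum, Finset.mul_sum,
    ← Finset.sum_add_distrib]
  apply Finset.sum_congr rfl
  intro i _
  simp only [Pi.add_apply, Pi.smul_apply, Pi.sub_apply, smul_eq_mul, C_add, C_mul, C_sub]
  ring

lemma P_zero {d : ℕ} : P (0 : Fin d → ℝ) = 0 := by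
  unfold P; simp

/-- a homogeneous quadratic form with nonzero mixed coefficient cannot vanish on two
non-proportional real polynomials -/
lemma quad {p q : ℝ[X]} (hpq : ∀ l m : ℝ, (l ≠ 0 ∨ m ≠ 0) → C l * p + C m * q ≠ 0)
    {A B' D : ℝ} (hB : B' ≠ 0)
    (h : C A * p ^ 2 + C (2 * B') * (p * q) + C D * q ^ 2 = 0) : False := by
  have hq : q ≠ 0 := by
    have := hpq 0 1 (Or.inr one_ne_zero)
    simpa using this
  have hev : ∀ t : ℝ, A * (p.eval t) ^ 2 + 2 * B' * (p.eval t * q.eval t) + D * (q.eval t) ^ 2 = 0 := by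
    intro t
    have := congrArg (Polynomial.eval t) h
    simpa using this
  have e2 : (C (2 * B') : ℝ[X]) = 2 * C B' := by
    rw [C_mul]; rfl
  by_cases hA : A = 0
  · subst hA
    have h1 : q * (C (2 * B') * p + C D * q) = 0 := by
      rw [C_0] at h
      linear_combination h
    rcases mul_eq_zero.1 h1 with h2 | h2
    · exact hq h2
    · exact hpq _ _ (Or.inl (mul_ne_zero two_ne_zero hB)) h2
  · rcases le_or_gt 0 (B' ^ 2 - A * D) with hD | hD
    · obtain ⟨δ, hδ2⟩ : ∃ δ : ℝ, δ ^ 2 = B' ^ 2 - A * D := ⟨_, Real.sq_sqrt hD⟩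
      have h1 : (C A * p + C (B' - δ) * q) * (C A * p + C (B' + δ) * q) = 0 := by
        have e1 : (C δ : ℝ[X]) ^ 2 = C B' ^ 2 - C A * C D := by
          rw [← C_pow, hδ2]; simp
        rw [e2] at h
        simp only [C_sub, C_add]
        linear_combination (C A) * h - q ^ 2 * e1
      rcases mul_eq_zero.1 h1 with h2 | h2
      · exact hpq _ _ (Or.inl hA) h2
      · exact hpq _ _ (Or.inl hA) h2
    · apply hq
      apply Polynomial.funext
      intro t
      have h1 := hev t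
      have h2 : (A * p.eval t + B' * q.eval t) ^ 2 + (A * D - B' ^ 2) * (q.eval t) ^ 2 = 0 := by
        linear_combination A * h1
      have h3 : (A * D - B' ^ 2) * (q.eval t) ^ 2 = 0 := by
        apply le_antisymm
        · nlinarith [sq_nonneg (A * p.eval t + B' * q.eval t)]
        · apply mul_nonneg (by linarith) (sq_nonneg _)
      have h4 : (q.eval t) ^ 2 = 0 := by
        rcases mul_eq_zero.1 h3 with h5 | h5
        · linarith
        · exact h5
      simpa using pow_eq_zero_iff (two_ne_zero) |>.1 h4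

/-- the linear part of the concyclicity determinant -/
noncomputable def Lp (x y z : ℝ) (p q r : ℝ[X]) : ℝ[X] :=
  C (y * z * (y - z)) * p + C (-(x * z * (x - z))) * q + C (x * y * (x - y)) * r

/-- the cubic part of the concyclicity determinant -/
noncomputable def Cp (x y z : ℝ) (p q r : ℝ[X]) : ℝ[X] :=
  p ^ 2 * (C y * r - C z * q) - q ^ 2 * (C x * r - C z * p) + r ^ 2 * (C x * q - C y * p)

lemma core {p q r : ℝ[X]} {x y z : ℝ} (hx : x ≠ 0) (hy : y ≠ 0) (hz : z ≠ 0)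
    (hxz : x ≠ z) (hyz : y ≠ z)
    (hpq : ∀ l m : ℝ, (l ≠ 0 ∨ m ≠ 0) → C l * p + C m * q ≠ 0)
    (hL : Lp x y z p q r = 0) (hC : Cp x y z p q r = 0) : False := by
  unfold Lp at hL
  unfold Cp at hC
  have hK : (C x * q - C y * p : ℝ[X]) ≠ 0 := by
    have := hpq (-y) x (Or.inr hx)
    intro h
    apply this
    rw [C_neg]
    linear_combination h
  have hM1 : (C x * q - C y * p) * (C (y * z * (y - z)) * p ^ 2 + C (-(x * z * (x - z))) * q ^ 2
      + C (x * y * (x - y)) * r ^ 2) = 0 := by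
    simp only [C_mul, C_sub, C_neg] at *
    linear_combination (C x * C y * (C x - C y)) * hC - (C y * p ^ 2 - C x * q ^ 2) * hL
  have hM := (mul_eq_zero.1 hM1).resolve_left hK
  refine quad hpq (A := (y * z * (y - z)) * (y * z * (y - z) + x * y * (x - y)))
    (B' := (y * z * (y - z)) * (-(x * z * (x - z))))
    (D := (-(x * z * (x - z))) * (-(x * z * (x - z)) + x * y * (x - y))) ?_ ?_
  · have h1 : y - z ≠ 0 := sub_ne_zero.2 hyz
    have h2 : x - z ≠ 0 := sub_ne_zero.2 hxz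
    have h3 : y * z * (y - z) ≠ 0 := mul_ne_zero (mul_ne_zero hy hz) h1
    have h4 : -(x * z * (x - z)) ≠ 0 := neg_ne_zero.2 (mul_ne_zero (mul_ne_zero hx hz) h2)
    exact mul_ne_zero h3 h4
  · have e2 : (C (2 * (y * z * (y - z) * (-(x * z * (x - z))))) : ℝ[X])
        = 2 * (C (y * z * (y - z)) * C (-(x * z * (x - z)))) := by
      rw [C_mul, C_mul]; rfl
    rw [e2]
    generalize hα : y * z * (y - z) = α at *
    generalize hβ : -(x * z * (x - z)) = β at *
    generalize hγ : x * y * (x - y) = γ at *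
    simp only [C_mul, C_add]
    linear_combination (C γ) * hM + (C α * p + C β * q - C γ * r) * hL

lemma fin_union {α : Type*} (V : Finset α) (f : α → Set ℝ) (h : ∀ a ∈ V, (f a).Finite) :
    {t : ℝ | ∃ a ∈ V, t ∈ f a}.Finite := by
  have : {t : ℝ | ∃ a ∈ V, t ∈ f a} = ⋃ a ∈ (V : Set α), f a := by
    ext t; simp
  rw [this]
  exact Set.Finite.biUnion V.finite_toSet (fun a ha => h a ha)

/-- first coordinate of the image point -/
noncomputable def xc {d : ℕ} (B : ℝ) (a : Fin d → ℝ) : ℝ := 2 * (P a).eval B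

/-- second coordinate of the image point -/
noncomputable def yc {d : ℕ} (s t : ℝ) (a : Fin d → ℝ) : ℝ := s * (P a).eval t

theorem generic {d : ℕ} (V : Finset (Fin d → ℝ)) (B : ℝ)
    (hx : ∀ a ∈ V, ∀ b ∈ V, a ≠ b → (P a).eval B ≠ (P b).eval B)
    (hV : ∀ a ∈ V, ∀ b ∈ V, ∀ c ∈ V, a ≠ b → a ≠ c → b ≠ c → ∀ l m : ℝ, (l ≠ 0 ∨ m ≠ 0) →
      l • (b - a) + m • (c - a) ≠ 0) :
    ∃ t s : ℝ, (∀ a ∈ V, |yc s t a| ≤ 1 / 4) ∧
      (∀ a ∈ V, ∀ b ∈ V, ∀ c ∈ V, a ≠ b → a ≠ c → b ≠ c →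
        (xc B b - xc B a) * (yc s t c - yc s t a) - (xc B c - xc B a) * (yc s t b - yc s t a) ≠ 0) ∧
      (∀ a ∈ V, ∀ b ∈ V, ∀ c ∈ V, ∀ e ∈ V, a ≠ b → a ≠ c → a ≠ e → b ≠ c → b ≠ e → c ≠ e →
        ((xc B b - xc B a) ^ 2 + (yc s t b - yc s t a) ^ 2) *
            ((xc B c - xc B a) * (yc s t e - yc s t a) - (xc B e - xc B a) * (yc s t c - yc s t a))
          - ((xc B c - xc B a) ^ 2 + (yc s t c - yc s t a) ^ 2) *
            ((xc B b - xc B a) * (yc s t e - yc s t a) - (xc B e - xc B a) * (yc s t b - yc s t a))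
          + ((xc B e - xc B a) ^ 2 + (yc s t e - yc s t a) ^ 2) *
            ((xc B b - xc B a) * (yc s t c - yc s t a) - (xc B c - xc B a) * (yc s t b - yc s t a))
          ≠ 0) := by
  classical
  -- nonparallel polynomials
  have hpar : ∀ a ∈ V, ∀ b ∈ V, ∀ c ∈ V, a ≠ b → a ≠ c → b ≠ c → ∀ l m : ℝ, (l ≠ 0 ∨ m ≠ 0) →
      C l * (P b - P a) + C m * (P c - P a) ≠ 0 := by
    intro a ha b hb c hc hab hac hbc l m hlm h0
    rw [P_lin] at h0
    apply hV a ha b hb c hc hab hac hbc l m hlm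
    apply P_inj
    rw [h0, P_zero]
  let e : (Fin d → ℝ) → ℝ := fun a => (P a).eval B
  let K : (Fin d → ℝ) → (Fin d → ℝ) → (Fin d → ℝ) → ℝ[X] := fun a b c =>
    C (e b - e a) * (P c - P a) - C (e c - e a) * (P b - P a)
  have hK : ∀ a ∈ V, ∀ b ∈ V, ∀ c ∈ V, a ≠ b → a ≠ c → b ≠ c → K a b c ≠ 0 := by
    intro a ha b hb c hc hab hac hbc h0
    apply hpar a ha b hb c hc hab hac hbc (-(e c - e a)) (e b - e a)
      (Or.inr (sub_ne_zero.2 (hx b hb a ha hab.symm)))
    rw [C_neg]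
    linear_combination h0
  let L4 : (Fin d → ℝ) → (Fin d → ℝ) → (Fin d → ℝ) → (Fin d → ℝ) → ℝ[X] := fun a b c f =>
    Lp (e b - e a) (e c - e a) (e f - e a) (P b - P a) (P c - P a) (P f - P a)
  let C4 : (Fin d → ℝ) → (Fin d → ℝ) → (Fin d → ℝ) → (Fin d → ℝ) → ℝ[X] := fun a b c f =>
    Cp (e b - e a) (e c - e a) (e f - e a) (P b - P a) (P c - P a) (P f - P a)
  have hLC : ∀ a ∈ V, ∀ b ∈ V, ∀ c ∈ V, ∀ f ∈ V, a ≠ b → a ≠ c → a ≠ f → b ≠ c → b ≠ f → c ≠ f →
      L4 a b c f ≠ 0 ∨ C4 a b c f ≠ 0 := by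
    intro a ha b hb c hc f hf hab hac haf hbc hbf hcf
    by_contra hcon
    rw [not_or, not_not, not_not] at hcon
    have h1 : e b - e a ≠ 0 := sub_ne_zero.2 (hx b hb a ha hab.symm)
    have h2 : e c - e a ≠ 0 := sub_ne_zero.2 (hx c hc a ha hac.symm)
    have h3 : e f - e a ≠ 0 := sub_ne_zero.2 (hx f hf a ha haf.symm)
    have h4 : e b - e a ≠ e f - e a := by
      intro h; exact hx b hb f hf hbf (by simpa using h)
    have h5 : e c - e a ≠ e f - e a := by
      intro h; exact hx c hc f hf hcf (by simpa using h)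
    exact core h1 h2 h3 h4 h5 (hpar a ha b hb c hc hab hac hbc) hcon.1 hcon.2
  -- choose t
  have hfin3 : {t : ℝ | ∃ a ∈ V, t ∈ {t : ℝ | ∃ b ∈ V, t ∈ {t : ℝ | ∃ c ∈ V, t ∈
      {t : ℝ | a ≠ b ∧ a ≠ c ∧ b ≠ c ∧ (K a b c).eval t = 0}}}}.Finite := by
    apply fin_union; intro a ha
    apply fin_union; intro b hb
    apply fin_union; intro c hc
    by_cases h : a ≠ b ∧ a ≠ c ∧ b ≠ c
    · apply (Polynomial.finite_setOf_isRoot (hK a ha b hb c hc h.1 h.2.1 h.2.2)).subset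
      intro t ht
      exact ht.2.2.2
    · apply Set.finite_empty.subset
      intro t ht
      exact absurd ⟨ht.1, ht.2.1, ht.2.2.1⟩ h
  have hfin4 : {t : ℝ | ∃ a ∈ V, t ∈ {t : ℝ | ∃ b ∈ V, t ∈ {t : ℝ | ∃ c ∈ V, t ∈ {t : ℝ | ∃ f ∈ V, t ∈
      {t : ℝ | (a ≠ b ∧ a ≠ c ∧ a ≠ f ∧ b ≠ c ∧ b ≠ f ∧ c ≠ f) ∧
        (L4 a b c f).eval t = 0 ∧ (C4 a b c f).eval t = 0}}}}}.Finite := by
    apply fin_union; intro a ha
    apply fin_union; intro b hb
    apply fin_union; intro c hc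
    apply fin_union; intro f hf
    by_cases h : a ≠ b ∧ a ≠ c ∧ a ≠ f ∧ b ≠ c ∧ b ≠ f ∧ c ≠ f
    · obtain ⟨h1, h2, h3, h4, h5, h6⟩ := h
      rcases hLC a ha b hb c hc f hf h1 h2 h3 h4 h5 h6 with h7 | h7
      · apply (Polynomial.finite_setOf_isRoot h7).subset
        intro t ht
        exact ht.2.1
      · apply (Polynomial.finite_setOf_isRoot h7).subset
        intro t ht
        exact ht.2.2
    · apply Set.finite_empty.subset
      intro t ht
      exact absurd ht.1 h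
  obtain ⟨t, ht⟩ := (hfin3.union hfin4).exists_notMem
  have ht3 : ∀ a ∈ V, ∀ b ∈ V, ∀ c ∈ V, a ≠ b → a ≠ c → b ≠ c → (K a b c).eval t ≠ 0 := by
    intro a ha b hb c hc hab hac hbc h0
    exact ht (Or.inl ⟨a, ha, b, hb, c, hc, hab, hac, hbc, h0⟩)
  have ht4 : ∀ a ∈ V, ∀ b ∈ V, ∀ c ∈ V, ∀ f ∈ V, a ≠ b → a ≠ c → a ≠ f → b ≠ c → b ≠ f → c ≠ f →
      (L4 a b c f).eval t ≠ 0 ∨ (C4 a b c f).eval t ≠ 0 := by
    intro a ha b hb c hc f hf h1 h2 h3 h4 h5 h6
    by_contra hcon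
    rw [not_or, not_not, not_not] at hcon
    exact ht (Or.inr ⟨a, ha, b, hb, c, hc, f, hf, ⟨h1, h2, h3, h4, h5, h6⟩, hcon⟩)
  -- choose s
  let S4 : (Fin d → ℝ) → (Fin d → ℝ) → (Fin d → ℝ) → (Fin d → ℝ) → ℝ[X] := fun a b c f =>
    C (4 * (L4 a b c f).eval t) + C ((C4 a b c f).eval t) * X ^ 2
  have hS4 : ∀ a ∈ V, ∀ b ∈ V, ∀ c ∈ V, ∀ f ∈ V, a ≠ b → a ≠ c → a ≠ f → b ≠ c → b ≠ f → c ≠ f →
      S4 a b c f ≠ 0 := by
    intro a ha b hb c hc f hf h1 h2 h3 h4 h5 h6 h0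
    have hc0 := congrArg (fun p => Polynomial.coeff p 0) h0
    have hc2 := congrArg (fun p => Polynomial.coeff p 2) h0
    simp only [S4, Polynomial.coeff_add, Polynomial.coeff_C_mul, Polynomial.coeff_X_pow,
      Polynomial.coeff_C, Polynomial.coeff_zero] at hc0 hc2
    norm_num at hc0 hc2
    rcases ht4 a ha b hb c hc f hf h1 h2 h3 h4 h5 h6 with h7 | h7
    · exact h7 hc0
    · exact h7 hc2
  have hfinS : {s : ℝ | ∃ a ∈ V, s ∈ {s : ℝ | ∃ b ∈ V, s ∈ {s : ℝ | ∃ c ∈ V, s ∈ {s : ℝ | ∃ f ∈ V, s ∈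
      {s : ℝ | (a ≠ b ∧ a ≠ c ∧ a ≠ f ∧ b ≠ c ∧ b ≠ f ∧ c ≠ f) ∧
        (S4 a b c f).eval s = 0}}}}}.Finite := by
    apply fin_union; intro a ha
    apply fin_union; intro b hb
    apply fin_union; intro c hc
    apply fin_union; intro f hf
    by_cases h : a ≠ b ∧ a ≠ c ∧ a ≠ f ∧ b ≠ c ∧ b ≠ f ∧ c ≠ f
    · obtain ⟨h1, h2, h3, h4, h5, h6⟩ := h
      apply (Polynomial.finite_setOf_isRoot (hS4 a ha b hb c hc f hf h1 h2 h3 h4 h5 h6)).subset
      intro s hs
      exact hs.2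
    · apply Set.finite_empty.subset
      intro s hs
      exact absurd hs.1 h
  obtain ⟨M, hM⟩ : ∃ M : ℝ, ∀ a ∈ V, |(P a).eval t| ≤ M := by
    refine ⟨∑ a ∈ V, |(P a).eval t|, fun a ha => ?_⟩
    exact Finset.single_le_sum (f := fun a => |(P a).eval t|) (fun _ _ => abs_nonneg _) ha
  have hM1 : 0 < 4 * (|M| + 1) := by positivity
  obtain ⟨s, hs, hs'⟩ := (Set.Ioo_infinite (show (0 : ℝ) < 1 / (4 * (|M| + 1)) by positivity)).exists_notMem_finite
    hfinS
  have hspos : 0 < s := hs.1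
  refine ⟨t, s, ?_, ?_, ?_⟩
  · intro a ha
    unfold yc
    rw [abs_mul, abs_of_pos hspos]
    have h1 := hM a ha
    have h2 : s * (4 * (|M| + 1)) < 1 := by
      have := hs.2
      rwa [lt_div_iff₀ hM1] at this
    have h3 : |(P a).eval t| ≤ |M| + 1 := by
      have := le_abs_self M
      linarith
    nlinarith [mul_le_mul_of_nonneg_left h3 hspos.le]
  · intro a ha b hb c hc hab hac hbc h0
    have h1 := ht3 a ha b hb c hc hab hac hbc
    apply h1
    have h2 : 2 * s * ((K a b c).eval t) = 0 := by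
      rw [← h0]
      simp only [K, e, xc, yc, Polynomial.eval_sub, Polynomial.eval_mul, Polynomial.eval_C]
      ring
    rcases mul_eq_zero.1 h2 with h3 | h3
    · exfalso
      have : 0 < 2 * s := by linarith
      linarith
    · exact h3
  · intro a ha b hb c hc f hf h1 h2 h3 h4 h5 h6 h0
    apply hs'
    refine ⟨a, ha, b, hb, c, hc, f, hf, ⟨h1, h2, h3, h4, h5, h6⟩, ?_⟩
    have h7 : 2 * s * ((S4 a b c f).eval s) = 0 := by
      rw [← h0]
      simp only [S4, L4, C4, Lp, Cp, e, xc, yc, Polynomial.eval_sub, Polynomial.eval_mul, Polynomial.eval_C,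
        Polynomial.eval_add, Polynomial.eval_pow, Polynomial.eval_X]
      ring
    rcases mul_eq_zero.1 h7 with h8 | h8
    · exfalso
      have : 0 < 2 * s := by linarith
      linarith
    · exact h8

end Pool.Agent.Helper532.Separated
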