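import Mathlib
import Pool.Agent.Helper532.SeparatedGeneric

/-!
Separated plane point sets in general position obtained from lattice points on a sphere.
-/

set_option autoImplicit false

namespace Pool.Agent.Helper532.Separated

open Polynomial Matrix

/-- digits in base `B` are unique -/
lemma base_inj : ∀ (d : ℕ) (B : ℤ) (u : Fin d → ℤ), (∀ i, |u i| < B) →
    ∑ i : Fin d, u i * B ^ (i : ℕ) = 0 → ∀ i, u i = 0 := by
  intro d
  induction d with
  | zero => intro B u _ _ i; exact i.elim0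
  | succ n ih =>
    intro B u hu h
    rw [Fin.sum_univ_succ] at h
    simp only [Fin.val_zero, pow_zero, mul_one, Fin.val_succ] at h
    have hB : 0 < B := lt_of_le_of_lt (abs_nonneg _) (hu 0)
    have h2 : ∑ i : Fin n, u i.succ * B ^ ((i : ℕ) + 1) = B * ∑ i : Fin n, u i.succ * B ^ (i : ℕ) := by
      rw [Finset.mul_sum]
      apply Finset.sum_congr rfl
      intro i _
      ring
    rw [h2] at h
    have hdvd : B ∣ u 0 := ⟨-∑ i : Fin n, u i.succ * B ^ (i : ℕ), by linarith⟩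
    have h0 : u 0 = 0 := Int.eq_zero_of_abs_lt_dvd hdvd (hu 0)
    rw [h0, zero_add] at h
    have h3 : ∑ i : Fin n, u i.succ * B ^ (i : ℕ) = 0 := by
      rcases mul_eq_zero.1 h with h4 | h4
      · omega
      · exact h4
    have h5 := ih B (fun i => u i.succ) (fun i => hu i.succ) h3
    intro i
    refine Fin.cases h0 (fun j => h5 j) i

lemma sphere_nopar {d : ℕ} (a b c : Fin d → ℝ) (hab : a ⬝ᵥ a = b ⬝ᵥ b) (hac : a ⬝ᵥ a = c ⬝ᵥ c)
    (h1 : a ≠ b) (h2 : a ≠ c) (h3 : b ≠ c) (l m : ℝ) (hlm : l ≠ 0 ∨ m ≠ 0) :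
    l • (b - a) + m • (c - a) ≠ 0 := by
  intro h0
  obtain ⟨u, rfl⟩ : ∃ u, b = a + u := ⟨b - a, by abel⟩
  obtain ⟨v, rfl⟩ : ∃ v, c = a + v := ⟨c - a, by abel⟩
  rw [add_sub_cancel_left, add_sub_cancel_left] at h0
  have hu : 2 * (a ⬝ᵥ u) = - (u ⬝ᵥ u) := by
    rw [dotProduct_add, add_dotProduct, add_dotProduct, dotProduct_comm u a] at hab
    linarith
  have hv : 2 * (a ⬝ᵥ v) = - (v ⬝ᵥ v) := by
    rw [dotProduct_add, add_dotProduct, add_dotProduct, dotProduct_comm v a] at hac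
    linarith
  have ea : l * (a ⬝ᵥ u) + m * (a ⬝ᵥ v) = 0 := by
    have := congrArg (fun w => a ⬝ᵥ w) h0
    simpa [dotProduct_add, dotProduct_smul, smul_eq_mul] using this
  have eu : l * (u ⬝ᵥ u) + m * (u ⬝ᵥ v) = 0 := by
    have := congrArg (fun w => u ⬝ᵥ w) h0
    simpa [dotProduct_add, dotProduct_smul, smul_eq_mul] using this
  have ev : l * (u ⬝ᵥ v) + m * (v ⬝ᵥ v) = 0 := by
    have := congrArg (fun w => v ⬝ᵥ w) h0
    simp only [dotProduct_add, dotProduct_smul, smul_eq_mul, dotProduct_zero] at this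
    rw [dotProduct_comm v u] at this
    exact this
  have hu0 : u ⬝ᵥ u ≠ 0 := by
    intro h
    rw [dotProduct_self_eq_zero] at h
    apply h1; rw [h]; simp
  have hv0 : v ⬝ᵥ v ≠ 0 := by
    intro h
    rw [dotProduct_self_eq_zero] at h
    apply h2; rw [h]; simp
  have huv : u - v ≠ 0 := by
    intro h
    apply h3; rw [sub_eq_zero.1 h]
  have e1 : l * (u ⬝ᵥ u) + m * (v ⬝ᵥ v) = 0 := by
    linear_combination (-2) * ea + l * hu + m * hv
  have e2 : m * (u ⬝ᵥ v - v ⬝ᵥ v) = 0 := by linear_combination eu - e1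
  have e3 : l * (u ⬝ᵥ v - u ⬝ᵥ u) = 0 := by linear_combination ev - e1
  have hl : l ≠ 0 := by
    intro hl
    rw [hl] at e1
    have hm : m ≠ 0 := by
      rcases hlm with h | h
      · exact absurd hl h
      · exact h
    have : m * (v ⬝ᵥ v) = 0 := by linarith
    exact (mul_ne_zero hm hv0) this
  have hm : m ≠ 0 := by
    intro hm
    rw [hm] at e1
    have : l * (u ⬝ᵥ u) = 0 := by linarith
    exact (mul_ne_zero hl hu0) this
  have e4 := (mul_eq_zero.1 e2).resolve_left hm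
  have e5 := (mul_eq_zero.1 e3).resolve_left hl
  apply huv
  rw [← dotProduct_self_eq_zero]
  rw [dotProduct_sub, sub_dotProduct, sub_dotProduct, dotProduct_comm v u]
  linarith

lemma dist_plane (x y x' y' : ℝ) :
    dist (!₂[x, y] : EuclideanSpace ℝ (Fin 2)) !₂[x', y'] = √((x - x') ^ 2 + (y - y') ^ 2) := by
  rw [EuclideanSpace.dist_eq]
  simp [Fin.sum_univ_two, Real.dist_eq, sq_abs]

lemma sqrt_lower (z : ℤ) (w : ℝ) : 2 * (|z| : ℤ) ≤ √((2 * (z : ℝ)) ^ 2 + w ^ 2) := by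
  apply Real.le_sqrt_of_sq_le
  have : (2 * ((|z| : ℤ) : ℝ)) ^ 2 = (2 * (z : ℝ)) ^ 2 := by
    rw [mul_pow, mul_pow]
    congr 1
    push_cast
    rw [sq_abs]
  rw [this]
  nlinarith [sq_nonneg w]

lemma sqrt_upper (z : ℤ) (w : ℝ) (hw : |w| ≤ 1 / 2) :
    √((2 * (z : ℝ)) ^ 2 + w ^ 2) ≤ 2 * (|z| : ℤ) + 1 / 2 := by
  have hz : (0 : ℝ) ≤ ((|z| : ℤ) : ℝ) := by exact_mod_cast abs_nonneg z
  apply Real.sqrt_le_iff.2
  constructor
  · linarith
  · have h1 : ((|z| : ℤ) : ℝ) ^ 2 = (z : ℝ) ^ 2 := by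
      push_cast; rw [sq_abs]
    have h2 : w ^ 2 ≤ 1 / 4 := by
      rw [← sq_abs]
      nlinarith [abs_nonneg w]
    nlinarith

/-- the real vector of a digit vector -/
def io {d m : ℕ} (a : Fin d → Fin m) : Fin d → ℝ := fun i => ((a i : ℕ) : ℝ)

lemma io_inj {d m : ℕ} {a b : Fin d → Fin m} (h : io a = io b) : a = b := by
  funext i
  have := congrFun h i
  simp only [io] at this
  exact Fin.ext (by exact_mod_cast this)

/-- the integer with given digits in base `4m` -/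
def Z {d m : ℕ} (a : Fin d → Fin m) : ℤ := ∑ i : Fin d, ((a i : ℕ) : ℤ) * (4 * (m : ℤ)) ^ (i : ℕ)

lemma Z_eval {d m : ℕ} (a : Fin d → Fin m) : (P (io a)).eval (4 * (m : ℝ)) = (Z a : ℝ) := by
  rw [P_eval]
  unfold Z io
  push_cast
  rfl

lemma Z_sub {d m : ℕ} (a b : Fin d → Fin m) : Z a - Z b =
    ∑ i : Fin d, (((a i : ℕ) : ℤ) - ((b i : ℕ) : ℤ)) * (4 * (m : ℤ)) ^ (i : ℕ) := by
  unfold Z
  rw [← Finset.sum_sub_distrib]
  apply Finset.sum_congr rfl
  intro i _
  ring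

lemma Z_same {d m : ℕ} (a b c e : Fin d → Fin m) (h : Z a - Z b = Z c - Z e) (i : Fin d) :
    ((a i : ℕ) : ℤ) - ((b i : ℕ) : ℤ) = ((c i : ℕ) : ℤ) - ((e i : ℕ) : ℤ) := by
  rw [Z_sub, Z_sub] at h
  have h1 := base_inj d (4 * (m : ℤ))
    (fun i => (((a i : ℕ) : ℤ) - ((b i : ℕ) : ℤ)) - (((c i : ℕ) : ℤ) - ((e i : ℕ) : ℤ))) ?_ ?_ i
  · linarith
  · intro j
    have h1 := (a j).2
    have h2 := (b j).2
    have h3 := (c j).2
    have h4 := (e j).2
    rw [abs_lt]
    constructor <;> omega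
  · rw [← sub_eq_zero, ← Finset.sum_sub_distrib] at h
    rw [← h]
    apply Finset.sum_congr rfl
    intro j _
    ring

lemma Z_inj {d m : ℕ} (a b : Fin d → Fin m) (h : Z a = Z b) : a = b := by
  funext i
  have h1 := Z_same a b a a (by rw [h]) i
  apply Fin.ext
  have : ((a i : ℕ) : ℤ) = ((b i : ℕ) : ℤ) := by linarith
  exact_mod_cast this

lemma Z_bound {d m : ℕ} (a b : Fin d → Fin m) : 4 * |Z a - Z b| + 1 ≤ (4 * (m : ℤ)) ^ d := by
  rcases Nat.eq_zero_or_pos d with hd | hd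
  · subst hd
    simp [Z]
  have hm : 0 < m := lt_of_le_of_lt (Nat.zero_le _) (a ⟨0, hd⟩).2
  rw [Z_sub]
  have h1 : |∑ i : Fin d, (((a i : ℕ) : ℤ) - ((b i : ℕ) : ℤ)) * (4 * (m : ℤ)) ^ (i : ℕ)| ≤
      ∑ i : Fin d, ((m : ℤ) - 1) * (4 * (m : ℤ)) ^ (i : ℕ) := by
    refine (Finset.abs_sum_le_sum_abs _ _).trans ?_
    apply Finset.sum_le_sum
    intro i _
    rw [abs_mul, abs_of_nonneg (show (0 : ℤ) ≤ (4 * (m : ℤ)) ^ (i : ℕ) by positivity)]
    apply mul_le_mul_of_nonneg_right _ (by positivity)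
    have h1 := (a i).2
    have h2 := (b i).2
    rw [abs_le]
    constructor <;> omega
  have h2 : ∑ i : Fin d, ((m : ℤ) - 1) * (4 * (m : ℤ)) ^ (i : ℕ) =
      ((m : ℤ) - 1) * ∑ i ∈ Finset.range d, (4 * (m : ℤ)) ^ i := by
    rw [← Finset.mul_sum, Fin.sum_univ_eq_sum_range (fun i => (4 * (m : ℤ)) ^ i) d]
  have h3 : (∑ i ∈ Finset.range d, (4 * (m : ℤ)) ^ i) * (4 * (m : ℤ) - 1) = (4 * (m : ℤ)) ^ d - 1 :=
    geom_sum_mul _ _
  have h4 : 0 ≤ ∑ i ∈ Finset.range d, (4 * (m : ℤ)) ^ i := Finset.sum_nonneg (fun i _ => by positivity)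
  have h5 : |∑ i : Fin d, (((a i : ℕ) : ℤ) - ((b i : ℕ) : ℤ)) * (4 * (m : ℤ)) ^ (i : ℕ)| ≤
      ((m : ℤ) - 1) * ∑ i ∈ Finset.range d, (4 * (m : ℤ)) ^ i := h2 ▸ h1
  nlinarith

theorem config {d m : ℕ} (S : Finset (Fin d → Fin m)) (r : ℕ)
    (hS : ∀ a ∈ S, ∑ i, (a i : ℕ) ^ 2 = r) :
    ∃ p : (Fin d → Fin m) → EuclideanSpace ℝ (Fin 2),
      (∀ a ∈ S, ∀ b ∈ S, ∀ c ∈ S, a ≠ b → a ≠ c → b ≠ c →
        ¬ Collinear ℝ ({p a, p b, p c} : Set (EuclideanSpace ℝ (Fin 2)))) ∧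
      (∀ a ∈ S, ∀ b ∈ S, ∀ c ∈ S, ∀ e ∈ S, a ≠ b → a ≠ c → a ≠ e → b ≠ c → b ≠ e → c ≠ e →
        ¬ EuclideanGeometry.Cospherical ({p a, p b, p c, p e} : Set (EuclideanSpace ℝ (Fin 2)))) ∧
      (∀ a ∈ S, ∀ b ∈ S, a ≠ b → 1 ≤ dist (p a) (p b)) ∧
      (∀ a ∈ S, ∀ b ∈ S, ∀ c ∈ S, ∀ e ∈ S, dist (p a) (p b) ≠ dist (p c) (p e) →
        1 ≤ |dist (p a) (p b) - dist (p c) (p e)|) ∧
      (∀ a ∈ S, ∀ b ∈ S, dist (p a) (p b) ≤ (4 * (m : ℝ)) ^ d) := by
  classical
  have hioS : ∀ a ∈ S, io a ⬝ᵥ io a = (r : ℝ) := by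
    intro a ha
    rw [← hS a ha]
    unfold io dotProduct
    push_cast
    apply Finset.sum_congr rfl
    intro i _
    ring
  obtain ⟨t, s, hsm, hcol, hcon⟩ := generic (S.image io) (4 * (m : ℝ))
    (by
      intro a ha b hb hab
      rw [Finset.mem_image] at ha hb
      obtain ⟨a, ha, rfl⟩ := ha
      obtain ⟨b, hb, rfl⟩ := hb
      rw [Z_eval, Z_eval]
      intro h
      apply hab
      rw [Z_inj a b (by exact_mod_cast h)])
    (by
      intro a ha b hb c hc hab hac hbc l m hlm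
      rw [Finset.mem_image] at ha hb hc
      obtain ⟨a, ha, rfl⟩ := ha
      obtain ⟨b, hb, rfl⟩ := hb
      obtain ⟨c, hc, rfl⟩ := hc
      exact sphere_nopar _ _ _ (by rw [hioS a ha, hioS b hb]) (by rw [hioS a ha, hioS c hc]) hab hac hbc
        l m hlm)
  let X : (Fin d → Fin m) → ℝ := fun a => xc (4 * (m : ℝ)) (io a)
  let Y : (Fin d → Fin m) → ℝ := fun a => yc s t (io a)
  have hX : ∀ a, X a = 2 * (Z a : ℝ) := by
    intro a
    simp only [X, xc, Z_eval]
  have hY : ∀ a ∈ S, |Y a| ≤ 1 / 4 := fun a ha => hsm _ (Finset.mem_image_of_mem _ ha)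
  have hYY : ∀ a ∈ S, ∀ b ∈ S, |Y a - Y b| ≤ 1 / 2 := by
    intro a ha b hb
    have := abs_sub (Y a) (Y b)
    have h1 := hY a ha
    have h2 := hY b hb
    linarith
  let p : (Fin d → Fin m) → EuclideanSpace ℝ (Fin 2) := fun a => !₂[X a, Y a]
  have hp0 : ∀ a, p a 0 = X a := fun a => rfl
  have hp1 : ∀ a, p a 1 = Y a := fun a => rfl
  have hdist : ∀ a b, dist (p a) (p b) =
      √((2 * ((Z a - Z b : ℤ) : ℝ)) ^ 2 + (Y a - Y b) ^ 2) := by
    intro a b
    rw [show p a = !₂[X a, Y a] from rfl, show p b = !₂[X b, Y b] from rfl, dist_plane, hX, hX]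
    push_cast
    congr 2
    ring
  have hlow : ∀ a b, 2 * ((|Z a - Z b| : ℤ) : ℝ) ≤ dist (p a) (p b) := by
    intro a b
    rw [hdist]
    exact sqrt_lower _ _
  have hupp : ∀ a ∈ S, ∀ b ∈ S, dist (p a) (p b) ≤ 2 * ((|Z a - Z b| : ℤ) : ℝ) + 1 / 2 := by
    intro a ha b hb
    rw [hdist]
    exact sqrt_upper _ _ (hYY a ha b hb)
  have hne : ∀ a b : Fin d → Fin m, a ≠ b → io a ≠ io b := fun a b h h' => h (io_inj h')
  refine ⟨p, ?_, ?_, ?_, ?_, ?_⟩
  · intro a ha b hb c hc hab hac hbc hcl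
    rw [collinear_iff_of_mem (p₀ := p a) (by simp)] at hcl
    obtain ⟨v, hv⟩ := hcl
    obtain ⟨r1, h1⟩ := hv (p b) (by simp)
    obtain ⟨r2, h2⟩ := hv (p c) (by simp)
    have b0 : X b - X a = r1 * v 0 := by
      have := congrArg (fun q : EuclideanSpace ℝ (Fin 2) => q 0) h1
      simp only [vadd_eq_add, PiLp.add_apply, PiLp.smul_apply, smul_eq_mul, hp0] at this
      linarith
    have b1 : Y b - Y a = r1 * v 1 := by
      have := congrArg (fun q : EuclideanSpace ℝ (Fin 2) => q 1) h1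
      simp only [vadd_eq_add, PiLp.add_apply, PiLp.smul_apply, smul_eq_mul, hp1] at this
      linarith
    have c0 : X c - X a = r2 * v 0 := by
      have := congrArg (fun q : EuclideanSpace ℝ (Fin 2) => q 0) h2
      simp only [vadd_eq_add, PiLp.add_apply, PiLp.smul_apply, smul_eq_mul, hp0] at this
      linarith
    have c1 : Y c - Y a = r2 * v 1 := by
      have := congrArg (fun q : EuclideanSpace ℝ (Fin 2) => q 1) h2
      simp only [vadd_eq_add, PiLp.add_apply, PiLp.smul_apply, smul_eq_mul, hp1] at this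
      linarith
    apply hcol (io a) (Finset.mem_image_of_mem _ ha) (io b) (Finset.mem_image_of_mem _ hb) (io c)
      (Finset.mem_image_of_mem _ hc) (hne _ _ hab) (hne _ _ hac) (hne _ _ hbc)
    change (X b - X a) * (Y c - Y a) - (X c - X a) * (Y b - Y a) = 0
    rw [b0, b1, c0, c1]
    ring
  · intro a ha b hb c hc e he hab hac hae hbc hbe hce hcs
    obtain ⟨o, R, hR⟩ := hcs
    have key : ∀ q ∈ ({p a, p b, p c, p e} : Set (EuclideanSpace ℝ (Fin 2))),
        (q 0 - o 0) ^ 2 + (q 1 - o 1) ^ 2 = R ^ 2 := by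
      intro q hq
      rw [← hR q hq, EuclideanSpace.dist_eq, Real.sq_sqrt (Finset.sum_nonneg (fun _ _ => by positivity))]
      simp [Fin.sum_univ_two, Real.dist_eq, sq_abs]
    have ka := key (p a) (by simp)
    have kb := key (p b) (by simp)
    have kc := key (p c) (by simp)
    have ke := key (p e) (by simp)
    rw [hp0, hp1] at ka kb kc ke
    apply hcon (io a) (Finset.mem_image_of_mem _ ha) (io b) (Finset.mem_image_of_mem _ hb) (io c)
      (Finset.mem_image_of_mem _ hc) (io e) (Finset.mem_image_of_mem _ he) (hne _ _ hab) (hne _ _ hac)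
      (hne _ _ hae) (hne _ _ hbc) (hne _ _ hbe) (hne _ _ hce)
    change ((X b - X a) ^ 2 + (Y b - Y a) ^ 2) *
            ((X c - X a) * (Y e - Y a) - (X e - X a) * (Y c - Y a))
          - ((X c - X a) ^ 2 + (Y c - Y a) ^ 2) *
            ((X b - X a) * (Y e - Y a) - (X e - X a) * (Y b - Y a))
          + ((X e - X a) ^ 2 + (Y e - Y a) ^ 2) *
            ((X b - X a) * (Y c - Y a) - (X c - X a) * (Y b - Y a)) = 0
    have qb : (X b - X a) ^ 2 + (Y b - Y a) ^ 2 =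
        2 * (X b - X a) * (o 0 - X a) + 2 * (Y b - Y a) * (o 1 - Y a) := by
      linear_combination kb - ka
    have qc : (X c - X a) ^ 2 + (Y c - Y a) ^ 2 =
        2 * (X c - X a) * (o 0 - X a) + 2 * (Y c - Y a) * (o 1 - Y a) := by
      linear_combination kc - ka
    have qe : (X e - X a) ^ 2 + (Y e - Y a) ^ 2 =
        2 * (X e - X a) * (o 0 - X a) + 2 * (Y e - Y a) * (o 1 - Y a) := by
      linear_combination ke - ka
    rw [qb, qc, qe]
    ring
  · intro a ha b hb hab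
    have h1 : 1 ≤ |Z a - Z b| := by
      have : Z a - Z b ≠ 0 := by
        intro h
        exact hab (Z_inj a b (by linarith))
      exact Int.one_le_abs this
    have h2 : (1 : ℝ) ≤ ((|Z a - Z b| : ℤ) : ℝ) := by exact_mod_cast h1
    have := hlow a b
    linarith
  · intro a ha b hb c hc e he hdne
    by_cases habs : |Z a - Z b| = |Z c - Z e|
    · exfalso
      apply hdne
      have hlin : ∀ x y : Fin d → Fin m, Y x - Y y =
          s * ∑ i, (((((x i : ℕ) : ℤ) - ((y i : ℕ) : ℤ) : ℤ)) : ℝ) * t ^ (i : ℕ) := by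
        intro x y
        simp only [Y, yc, P_eval, io]
        rw [← mul_sub, ← Finset.sum_sub_distrib]
        congr 1
        apply Finset.sum_congr rfl
        intro i _
        push_cast
        ring
      rcases abs_eq_abs.1 habs with h | h
      · have hY' : Y a - Y b = Y c - Y e := by
          rw [hlin, hlin]
          congr 1
          apply Finset.sum_congr rfl
          intro i _
          rw [Z_same a b c e h i]
        rw [hdist, hdist, h, hY']
      · have h' : Z a - Z b = Z e - Z c := by rw [h]; ring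
        have hY' : Y a - Y b = Y e - Y c := by
          rw [hlin, hlin]
          congr 1
          apply Finset.sum_congr rfl
          intro i _
          rw [Z_same a b e c h' i]
        rw [dist_comm (p c) (p e), hdist, hdist, h', hY']
    · have h1 := hlow a b
      have h2 := hlow c e
      have h3 := hupp a ha b hb
      have h4 := hupp c hc e he
      rcases lt_or_gt_of_ne habs with h | h
      · have h5 : ((|Z a - Z b| : ℤ) : ℝ) + 1 ≤ ((|Z c - Z e| : ℤ) : ℝ) := by exact_mod_cast h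
        rw [abs_sub_comm]
        refine le_trans ?_ (le_abs_self _)
        linarith
      · have h5 : ((|Z c - Z e| : ℤ) : ℝ) + 1 ≤ ((|Z a - Z b| : ℤ) : ℝ) := by exact_mod_cast h
        refine le_trans ?_ (le_abs_self _)
        linarith
  · intro a ha b hb
    have h1 := hupp a ha b hb
    have h2 := Z_bound a b
    have h3 : 4 * ((|Z a - Z b| : ℤ) : ℝ) + 1 ≤ (4 * (m : ℝ)) ^ d := by exact_mod_cast h2
    have h4 : (0 : ℝ) ≤ ((|Z a - Z b| : ℤ) : ℝ) := by exact_mod_cast abs_nonneg _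
    linarith

end Pool.Agent.Helper532.Separated
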